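import Pool.Agent.Results.MP_00fcbb_al.ProductBound

/-!
# Pairwise commuting conjugates

If `G` is a finite union of double cosets `A g B` with `A`, `B` abelian, and a subgroup `H` has
arbitrarily many pairwise commuting conjugates, then `H` is centre-by-metabelian.
-/

set_option autoImplicit false

universe u v

open scoped commutatorElement

namespace Pool.Agent.AQ

open Pool.Agent.Results.MP_00fcbb_al.ProductBound

theorem commConj {G : Type u} [Group G] {κ : Type} [Finite κ] {A B : Subgroup G}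
    (cA : ∀ x ∈ A, ∀ y ∈ A, x * y = y * x) (cB : ∀ x ∈ B, ∀ y ∈ B, x * y = y * x)
    (c : G → κ) (hc : ∀ g g', c g = c g' → ∃ a ∈ A, ∃ b ∈ B, g = a * g' * b)
    (H : Subgroup G)
    (hconj : ∀ N : ℕ, ∃ h : Fin N → G, ∀ i j, i ≠ j → ∀ x ∈ H, ∀ y ∈ H,
      Commute (h i * x * (h i)⁻¹) (h j * y * (h j)⁻¹))
    (x : Fin 4 → G) (hx : ∀ i, x i ∈ H) (v : G) (hv : v ∈ H) :
    Commute ⁅⁅x 0, x 1⁆, ⁅x 2, x 3⁆⁆ v := by
  classical
  obtain ⟨ι, _, hι⟩ :=
    Combinatorics.Line.exists_mono_in_high_dimension Alph κ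
  obtain ⟨h₀, hcomm₀⟩ := hconj (Fintype.card ι)
  let e : ι ≃ Fin (Fintype.card ι) := Fintype.equivFin ι
  let h : ι → G := fun i => h₀ (e i)
  have hcomm : ∀ i j, i ≠ j → ∀ x ∈ H, ∀ y ∈ H,
      Commute (h i * x * (h i)⁻¹) (h j * y * (h j)⁻¹) :=
    fun i j hij => hcomm₀ (e i) (e j) (fun hh => hij (e.injective hh))
  let ψ : ι → H →* G := fun i => (MulAut.conj (h i)).toMonoidHom.comp H.subtype
  have hψ : ∀ i (y : H), ψ i y = h i * y * (h i)⁻¹ := fun i y => rfl
  have hcψ : Pairwise fun i j => ∀ (x y : H), Commute (ψ i x) (ψ j y) :=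
    fun i j hij x y => hcomm i j hij x x.2 y y.2
  let φ : (ι → H) →* G := MonoidHom.noncommPiCoprod ψ hcψ
  let X₀ : Fin 4 → H := fun i => ⟨x i, hx i⟩
  let P : (ι → Alph) → G := fun f => φ fun k => ev X₀ (f k)
  obtain ⟨l, ⟨col, hl⟩⟩ := hι fun f => c (P f)
  have hcol : ∀ t, c (P (l t)) = c (P (l none)) := fun t => (hl t).trans (hl none).symm
  -- the active coordinates
  let S : (ι → H) → (ι → H) := fun y k => if l.idxFun k = none then y k else 1
  have hS : ∀ t, P (l t) = φ (S fun k => ev X₀ t) * P (l none) := fun t => by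
    show φ _ = φ _ * φ _
    rw [← map_mul]
    congr 1
    funext k
    rw [Pi.mul_apply]
    rcases h : l.idxFun k with _ | y
    · rw [Combinatorics.Line.apply_none l _ _ h, Combinatorics.Line.apply_none l _ _ h]
      simp [S, h, ev]
    · rw [Combinatorics.Line.apply_some h, Combinatorics.Line.apply_some h]
      simp [S, h]
  set w := P (l none) with hw
  let B₁ : Subgroup G := B.map (MulAut.conj w).toMonoidHom
  have cB₁ : ∀ x ∈ B₁, ∀ y ∈ B₁, x * y = y * x := by
    rintro _ ⟨y, hy, rfl⟩ _ ⟨z, hz, rfl⟩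
    rw [← map_mul, ← map_mul, cB y hy z hz]
  have hin : ∀ t, InProd A B₁ (φ (S fun k => ev X₀ t)) := fun t => by
    obtain ⟨a, ha, b, hb, h⟩ := hc _ _ (hcol t)
    rw [hS t] at h
    refine ⟨a, ha, w * b * w⁻¹, ⟨b, hb, rfl⟩, ?_⟩
    calc φ (S fun k => ev X₀ t) = (φ (S fun k => ev X₀ t) * w) * w⁻¹ := by group
      _ = (a * w * b) * w⁻¹ := by rw [h]
      _ = _ := by group
  let X : Fin 4 → G := fun i => φ (S fun k => X₀ i)
  have q1 : ∀ i, φ (S fun k => ev X₀ (some (.inl i))) = X i := fun i => rfl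
  have q2 : ∀ i, φ (S fun k => ev X₀ (some (.inr (.inl i)))) = (X i)⁻¹ := fun i => by
    rw [← map_inv]
    congr 1
    funext k
    by_cases h : l.idxFun k = none <;> simp [S, h, ev]
  have q3 : ∀ i j, φ (S fun k => ev X₀ (some (.inr (.inr (i, j))))) = (X i)⁻¹ * X j :=
    fun i j => by
    rw [← map_inv, ← map_mul]
    congr 1
    funext k
    by_cases h : l.idxFun k = none <;> simp [S, h, ev]
  have hcomm := four cA cB₁ (fun i => (X i)⁻¹) (fun i => by rw [← q2]; exact hin _)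
    (fun i => by rw [inv_inv, ← q1]; exact hin _)
    (fun i j => by rw [inv_inv, ← q3]; exact hin _) 0 1 2 3
  simp only [inv_inv] at hcomm
  have hone : ⁅⁅X 0, X 1⁆, ⁅X 2, X 3⁆⁆ = 1 := commutatorElement_eq_one_iff_commute.2 hcomm
  set κ₀ : H := ⁅⁅X₀ 0, X₀ 1⁆, ⁅X₀ 2, X₀ 3⁆⁆ with hκ₀
  have hφS : φ (S fun k => κ₀) = 1 := by
    rw [← hone]
    simp only [commutatorElement_def, X, ← map_inv, ← map_mul]
    congr 1
    funext k
    by_cases h : l.idxFun k = none <;> simp [S, h, hκ₀, commutatorElement_def]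
  obtain ⟨i, hi⟩ := l.proper
  let v₀ : H := ⟨v, hv⟩
  have h1 : φ (Pi.mulSingle i ⁅κ₀, v₀⁆) = 1 := by
    have : (Pi.mulSingle i ⁅κ₀, v₀⁆ : ι → H) = ⁅(S fun k => κ₀), (Pi.mulSingle i v₀ : ι → H)⁆ := by
      funext k
      by_cases hk : k = i
      · subst hk
        simp [S, hi, commutatorElement_def]
      · simp [Pi.mulSingle_eq_of_ne hk, commutatorElement_def]
    rw [this, map_commutatorElement, hφS]
    simp
  rw [MonoidHom.noncommPiCoprod_mulSingle, hψ] at h1
  have h2 : ((⁅κ₀, v₀⁆ : H) : G) = 1 := by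
    have := congrArg (fun g => (h i)⁻¹ * g * (h i)) h1
    simpa [mul_assoc] using this
  have h3 : (⁅κ₀, v₀⁆ : H) = 1 := Subtype.ext h2
  rw [commutatorElement_eq_one_iff_commute] at h3
  have h4 := h3.map H.subtype
  simpa [hκ₀, map_commutatorElement, X₀, v₀] using h4

end Pool.Agent.AQ
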